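import Pool.Agent.Lib.MP_0aaa5a_lc.Universe
import Pool.Agent.Lib.MP_0aaa5a_lc.Swindle

/-!
# Every compact metrizable space in the Cantor-cube permutation model is separable
-/

set_option autoImplicit false

namespace Pool.Agent.Results.MP_0aaa5a_lc.CompactMetrizableSeparable

open Pool.Agent.MP_0aaa5a_lc Pool.Agent.MP_0aaa5a_lc.V

/-! ### Permutations moving only one of the `A_n` -/

/-- Act by `h` on `A_n` and trivially on the other atoms. -/
def singleFun (n : ℕ) (h : Cantor ≃ₜ Cantor) (a : Atom) : Atom :=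
  if a.1 = n then (n, h a.2) else a

theorem singleFun_of_eq {n : ℕ} (h : Cantor ≃ₜ Cantor) (f : Cantor) :
    singleFun n h (n, f) = (n, h f) := by simp [singleFun]

theorem singleFun_of_ne {n : ℕ} (h : Cantor ≃ₜ Cantor) {a : Atom} (ha : a.1 ≠ n) :
    singleFun n h a = a := by simp [singleFun, ha]

theorem singleFun_mul (n : ℕ) (g h : Cantor ≃ₜ Cantor) (a : Atom) :
    singleFun n (g * h) a = singleFun n g (singleFun n h a) := by
  obtain ⟨m, f⟩ := a
  by_cases hm : m = n
  · subst hm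
    rw [singleFun_of_eq, singleFun_of_eq, singleFun_of_eq]
    rfl
  · rw [singleFun_of_ne (a := (m, f)) _ hm, singleFun_of_ne (a := (m, f)) h hm,
      singleFun_of_ne (a := (m, f)) g hm]

theorem singleFun_one (n : ℕ) (a : Atom) : singleFun n 1 a = a := by
  obtain ⟨m, f⟩ := a
  by_cases hm : m = n
  · subst hm
    rw [singleFun_of_eq]
    rfl
  · rw [singleFun_of_ne (a := (m, f)) _ hm]

/-- The homomorphism from the homeomorphism group into the permutations of the atoms. -/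
def single (n : ℕ) : (Cantor ≃ₜ Cantor) →* Equiv.Perm Atom where
  toFun h :=
    { toFun := singleFun n h
      invFun := singleFun n h⁻¹
      left_inv := fun a => by rw [← singleFun_mul, inv_mul_cancel, singleFun_one]
      right_inv := fun a => by rw [← singleFun_mul, mul_inv_cancel, singleFun_one] }
  map_one' := Equiv.ext (fun a => singleFun_one n a)
  map_mul' g h := Equiv.ext (fun a => singleFun_mul n g h a)

theorem single_apply (n : ℕ) (h : Cantor ≃ₜ Cantor) (a : Atom) :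
    single n h a = singleFun n h a := rfl

theorem fixLT_single {k n : ℕ} (hkn : k ≤ n) (h : Cantor ≃ₜ Cantor) : FixLT k (single n h) := by
  constructor
  · intro m
    by_cases hm : m = n
    · subst hm
      exact ⟨h, fun f => by rw [single_apply, singleFun_of_eq]⟩
    · refine ⟨Homeomorph.refl _, fun f => ?_⟩
      rw [single_apply, singleFun_of_ne (a := (m, f)) h hm]
      rfl
  · intro a ha
    rw [single_apply, singleFun_of_ne]
    omega

/-- The product of the first `j` single-coordinate permutations. -/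
def partProd (h : ℕ → (Cantor ≃ₜ Cantor)) : ℕ → Equiv.Perm Atom
  | 0 => 1
  | j + 1 => single j (h j) * partProd h j

theorem partProd_apply (h : ℕ → (Cantor ≃ₜ Cantor)) (j m : ℕ) (f : Cantor) :
    partProd h j (m, f) = if m < j then (m, h m f) else (m, f) := by
  induction j with
  | zero => simp [partProd]
  | succ j ih =>
    rw [partProd, Equiv.Perm.mul_apply, ih, single_apply]
    by_cases h1 : m < j
    · rw [if_pos h1, if_pos (by omega), singleFun_of_ne]
      simp only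
      omega
    · rw [if_neg h1]
      by_cases h2 : m = j
      · subst h2
        rw [if_pos (by omega), singleFun_of_eq]
      · rw [if_neg (by omega), singleFun_of_ne _ h2]

section Space

variable {X d : V} {ρ : V → V → ℝ}

theorem exists_level (hX : InN X) (hm : IsMetricInN X d ρ) :
    ∃ k : ℕ, ∀ φ : Equiv.Perm Atom, FixLT k φ → act φ X = X ∧ act φ d = d := by
  obtain ⟨k1, h1⟩ := (isSymmetric_iff X).1 hX.symmetric
  obtain ⟨k2, h2⟩ := (isSymmetric_iff d).1 hm.inN.symmetric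
  exact ⟨max k1 k2, fun φ hφ => ⟨h1 φ (hφ.mono (le_max_left _ _)),
    h2 φ (hφ.mono (le_max_right _ _))⟩⟩

variable {k : ℕ} (hk : ∀ φ : Equiv.Perm Atom, FixLT k φ → act φ X = X ∧ act φ d = d)

include hk in
theorem act_mem_X {φ : Equiv.Perm Atom} (hφ : FixLT k φ) {x : V} (hx : x ∈ X) : act φ x ∈ X := by
  have := act_mem_of_mem φ hx
  rwa [(hk φ hφ).1] at this

include hk in
theorem rho_act (hm : IsMetricInN X d ρ) {φ : Equiv.Perm Atom} (hφ : FixLT k φ) {x y : V}
    (hx : x ∈ X) (hy : y ∈ X) : ρ (act φ x) (act φ y) = ρ x y := by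
  have h1 : pair (pair x y) (real (ρ x y)) ∈ d := (hm.graph _).2 ⟨x, hx, y, hy, rfl⟩
  have h2 := act_mem_of_mem φ h1
  rw [(hk φ hφ).2, act_pair, act_pair, act_real] at h2
  obtain ⟨x', -, y', -, h3⟩ := (hm.graph _).1 h2
  obtain ⟨h4, h5⟩ := pair_inj h3
  obtain ⟨h6, h7⟩ := pair_inj h4
  rw [h6, h7]
  exact (real_injective h5).symm

/-- Open balls. -/
noncomputable def ball (X : V) (ρ : V → V → ℝ) (ε : ℝ) (x : V) : V := sep X (fun y => ρ x y < ε)

include hk in
theorem act_ball (hm : IsMetricInN X d ρ) {φ : Equiv.Perm Atom} (hφ : FixLT k φ) (ε : ℝ) {x : V}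
    (hx : x ∈ X) : act φ (ball X ρ ε x) = ball X ρ ε (act φ x) := by
  apply V.ext ((isSet_act φ).2 (isSet_sep _ _)) (isSet_sep _ _)
  intro z
  rw [mem_act, mem_sep, mem_sep]
  have hz : act φ⁻¹ z ∈ X ↔ z ∈ X := by
    constructor
    · intro h
      have := act_mem_X hk hφ h
      rwa [act_act_inv] at this
    · intro h
      exact act_mem_X hk hφ.inv h
  constructor
  · rintro ⟨h1, h2⟩
    refine ⟨hz.1 h1, ?_⟩
    rw [← rho_act hk hm hφ hx h1, act_act_inv] at h2
    exact h2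
  · rintro ⟨h1, h2⟩
    have h1' := hz.2 h1
    refine ⟨h1', ?_⟩
    rw [← rho_act hk hm hφ hx h1', act_act_inv]
    exact h2

include hk in
theorem inN_ball (hX : InN X) (hm : IsMetricInN X d ρ) (ε : ℝ) {x : V} (hx : x ∈ X) :
    InN (ball X ρ ε x) := by
  obtain ⟨l, hl⟩ := (isSymmetric_iff x).1 (hX.mem hx).symmetric
  refine inN_of_fixed (max k l) (fun φ hφ => ?_) (fun y hy => ?_)
  · rw [act_ball hk hm (hφ.mono (le_max_left _ _)) ε hx, hl φ (hφ.mono (le_max_right _ _))]
  · exact hX.mem (mem_sep.1 hy).1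

/-- Finite in the model implies finite. -/
theorem finite_of_finiteInN {D : V} (h : FiniteInN D) : Set.Finite {U : V | U ∈ D} := by
  classical
  obtain ⟨-, n, f, -, hf⟩ := h
  have hch : ∀ U : {U : V | U ∈ D}, ∃ y : V, pair U.1 y ∈ f := fun U => (hf.total U.1 U.2).exists
  choose c hc using hch
  have hmem : ∀ U, ∃ m : Fin n, nat m.1 = c U := by
    intro U
    obtain ⟨x, -, y, hy, hxy⟩ := hf.pairs _ (hc U)
    obtain ⟨m, hm, h⟩ := mem_nat.1 hy
    exact ⟨⟨m, hm⟩, by rw [h]; exact (pair_inj hxy).2.symm⟩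
  choose m hm using hmem
  have hinj : Function.Injective m := by
    intro U W hUW
    have h1 : c U = c W := by rw [← hm U, ← hm W, hUW]
    have h2 := hc W
    rw [← h1] at h2
    have hy : c U ∈ nat n := mem_nat.2 ⟨(m U).1, (m U).2, hm U⟩
    exact Subtype.ext ((hf.onto _ hy).unique (hc U) h2)
  exact Finite.of_injective m hinj

include hk in
theorem totally_bounded {τ : V} (hX : InN X) (hm : IsMetricInN X d ρ)
    (hτ : ∀ U : V, U ∈ τ ↔ (IsSet U ∧ InN U ∧ Sub U X ∧
      ∀ x : V, x ∈ U → ∃ ε : ℝ, 0 < ε ∧ ∀ y : V, y ∈ X → ρ x y < ε → y ∈ U))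
    (hc : IsCompactInN X τ) {ε : ℝ} (hε : 0 < ε) :
    ∃ F : Finset {x : V // x ∈ X}, ∀ x : {x : V // x ∈ X}, ∃ y ∈ F, ρ x.1 y.1 < ε := by
  classical
  let O : V := image X (ball X ρ ε)
  have hO : ∀ U : V, U ∈ O ↔ ∃ w : V, w ∈ X ∧ ball X ρ ε w = U := fun U => mem_image
  have hON : InN O := by
    refine inN_of_fixed k (fun φ hφ => ?_) (fun U hU => ?_)
    · apply V.ext ((isSet_act φ).2 (isSet_image _ _)) (isSet_image _ _)
      intro U
      rw [mem_act]
      constructor
      · intro h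
        obtain ⟨w, hw, hwU⟩ := (hO _).1 h
        refine (hO _).2 ⟨act φ w, act_mem_X hk hφ hw, ?_⟩
        rw [← act_ball hk hm hφ ε hw, hwU, act_act_inv]
      · intro h
        obtain ⟨w, hw, hwU⟩ := (hO _).1 h
        refine (hO _).2 ⟨act φ⁻¹ w, act_mem_X hk hφ.inv hw, ?_⟩
        rw [← act_ball hk hm hφ.inv ε hw, hwU]
    · obtain ⟨w, hw, rfl⟩ := (hO U).1 hU
      exact inN_ball hk hX hm ε hw
  have hOτ : Sub O τ := by
    intro U hU
    obtain ⟨w, hw, rfl⟩ := (hO U).1 hU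
    refine (hτ _).2 ⟨isSet_sep _ _, inN_ball hk hX hm ε hw, fun z hz => (mem_sep.1 hz).1, ?_⟩
    intro x hx
    obtain ⟨hxX, hwx⟩ := mem_sep.1 hx
    refine ⟨ε - ρ w x, by linarith, fun y hy hxy => mem_sep.2 ⟨hy, ?_⟩⟩
    have := hm.triangle w x y hw hxX hy
    linarith
  have hcov : ∀ x : V, x ∈ X → ∃ U : V, U ∈ O ∧ x ∈ U := by
    intro x hx
    refine ⟨ball X ρ ε x, (hO _).2 ⟨x, hx, rfl⟩, mem_sep.2 ⟨hx, ?_⟩⟩
    rw [(hm.eq_iff x x hx hx).2 rfl]
    exact hε
  obtain ⟨O', -, hfin, hsub, hcov'⟩ := hc O (isSet_image _ _) hON hOτ hcov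
  have hfin' := finite_of_finiteInN hfin
  have hcenter : ∀ U : {U : V | U ∈ O'}, ∃ w : {x : V // x ∈ X}, ball X ρ ε w.1 = U.1 := by
    intro U
    obtain ⟨w, hw, h⟩ := (hO U.1).1 (hsub U.1 U.2)
    exact ⟨⟨w, hw⟩, h⟩
  choose c hc' using hcenter
  have : Fintype {U : V | U ∈ O'} := hfin'.fintype
  refine ⟨Finset.univ.image c, fun x => ?_⟩
  obtain ⟨U, hU, hxU⟩ := hcov' x.1 x.2
  refine ⟨c ⟨U, hU⟩, Finset.mem_image_of_mem _ (Finset.mem_univ _), ?_⟩
  have h1 : ball X ρ ε (c ⟨U, hU⟩).1 = U := hc' ⟨U, hU⟩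
  rw [← h1] at hxU
  rw [hm.symm x.1 _ x.2 (c ⟨U, hU⟩).2]
  exact (mem_sep.1 hxU).2

/-- The action of the homeomorphism group on the points of `X` through `A_n`. -/
def pointAct (hk : ∀ φ : Equiv.Perm Atom, FixLT k φ → act φ X = X ∧ act φ d = d)
    (n : ℕ) (hn : k ≤ n) :
    (Cantor ≃ₜ Cantor) →* Equiv.Perm {x : V // x ∈ X} where
  toFun h :=
    { toFun := fun x => ⟨act (single n h) x.1, act_mem_X hk (fixLT_single hn h) x.2⟩
      invFun := fun x => ⟨act (single n h)⁻¹ x.1, act_mem_X hk (fixLT_single hn h).inv x.2⟩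
      left_inv := fun x => Subtype.ext (act_inv_act _ _)
      right_inv := fun x => Subtype.ext (act_act_inv _ _) }
  map_one' := by
    apply Equiv.ext
    intro x
    apply Subtype.ext
    show act (single n 1) x.1 = x.1
    rw [map_one, act_one]
  map_mul' g h := by
    apply Equiv.ext
    intro x
    apply Subtype.ext
    show act (single n (g * h)) x.1 = act (single n g) (act (single n h) x.1)
    rw [map_mul, act_mul]

include hk in
theorem single_trivial {τ : V} (hX : InN X) (hm : IsMetricInN X d ρ)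
    (hτ : ∀ U : V, U ∈ τ ↔ (IsSet U ∧ InN U ∧ Sub U X ∧
      ∀ x : V, x ∈ U → ∃ ε : ℝ, 0 < ε ∧ ∀ y : V, y ∈ X → ρ x y < ε → y ∈ U))
    (hc : IsCompactInN X τ) {n : ℕ} (hn : k ≤ n) (h : Cantor ≃ₜ Cantor) {x : V} (hx : x ∈ X) :
    act (single n h) x = x := by
  have key : pointAct hk n hn h = 1 := by
    apply trivial_action (A := pointAct hk n hn)
      (ρ := fun x y : {x : V // x ∈ X} => ρ x.1 y.1)
    · intro x y
      exact hm.symm _ _ x.2 y.2
    · intro x y z
      exact hm.triangle _ _ _ x.2 y.2 z.2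
    · intro g x y
      exact rho_act hk hm (fixLT_single hn g) x.2 y.2
    · intro x y h
      exact Subtype.ext ((hm.eq_iff _ _ x.2 y.2).1 (le_antisymm h (hm.nonneg _ _ x.2 y.2)))
    · intro ε hε
      exact totally_bounded hk hX hm hτ hc hε
  have h1 := congrArg (fun e : Equiv.Perm {x : V // x ∈ X} => (e ⟨x, hx⟩).1) key
  exact h1

include hk in
/-- All points of a compact metric space in the model are fixed by `fix_G(E)`, for `E` a support
of the space. -/
theorem all_fixed {τ : V} (hX : InN X) (hm : IsMetricInN X d ρ)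
    (hτ : ∀ U : V, U ∈ τ ↔ (IsSet U ∧ InN U ∧ Sub U X ∧
      ∀ x : V, x ∈ U → ∃ ε : ℝ, 0 < ε ∧ ∀ y : V, y ∈ X → ρ x y < ε → y ∈ U))
    (hc : IsCompactInN X τ) {φ : Equiv.Perm Atom} (hφ : FixLT k φ) {x : V} (hx : x ∈ X) :
    act φ x = x := by
  obtain ⟨l, hl⟩ := (isSymmetric_iff x).1 (hX.mem hx).symmetric
  choose h hh using hφ.1
  have hP : ∀ j, act (partProd h j) x = x := by
    intro j
    induction j with
    | zero => exact act_one x
    | succ j ih =>
      rw [partProd, act_mul, ih]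
      by_cases hjk : j < k
      · have : h j = 1 := by
          apply Homeomorph.ext
          intro f
          have h1 := hφ.2 (j, f) hjk
          rw [hh j f] at h1
          exact (Prod.ext_iff.1 h1).2
        rw [this, map_one, act_one]
      · exact single_trivial hk hX hm hτ hc (not_lt.1 hjk) (h j) hx
  have hPG : ∀ j, IsInG (partProd h j) := by
    intro j
    induction j with
    | zero => exact isInG_one
    | succ j ih => exact (fixLT_single (le_refl j) (h j)).1.mul ih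
  have hψ : FixLT l ((partProd h l)⁻¹ * φ) := by
    refine ⟨(hPG l).inv.mul hφ.1, ?_⟩
    rintro ⟨m, f⟩ hm'
    rw [Equiv.Perm.mul_apply, Equiv.Perm.inv_eq_iff_eq, hh m f, partProd_apply, if_pos hm']
  have e1 := hl _ hψ
  have e2 : φ = partProd h l * ((partProd h l)⁻¹ * φ) := by group
  rw [e2, act_mul, e1, hP]

/-- A set in the ground model all of whose members are in the model and are fixed by all
permutations in `fix_G(E)` is in the model. -/
theorem inN_of_members_fixed (k : ℕ) {D : V} (hD : IsSet D)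
    (h : ∀ y : V, y ∈ D → InN y ∧ ∀ φ : Equiv.Perm Atom, FixLT k φ → act φ y = y) : InN D := by
  refine inN_of_fixed k (fun φ hφ => ?_) (fun y hy => (h y hy).1)
  apply V.ext ((isSet_act φ).2 hD) hD
  intro z
  rw [mem_act]
  constructor
  · intro hz
    have h1 := (h _ hz).2 φ hφ
    rw [act_act_inv] at h1
    rwa [← h1] at hz
  · intro hz
    have h1 := (h _ hz).2 φ⁻¹ hφ.inv
    rwa [h1]

end Space

/-- **Main theorem.** In the Cantor-cube permutation model every compact metrizable space is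
separable. -/
theorem result : MCSHoldsInN := by
  classical
  intro X τ hsp hc hmet
  obtain ⟨d, ρ, hm, hτ⟩ := hmet
  have hX := hsp.inN
  obtain ⟨k, hk⟩ := exists_level hX hm
  have htb := fun n : ℕ => totally_bounded hk hX hm hτ hc
    (ε := 1 / ((n : ℝ) + 1)) (by positivity)
  choose F hF using htb
  -- the countable dense set
  let D0 : Set {x : V // x ∈ X} := ⋃ n, (F n : Set {x : V // x ∈ X})
  have hD0 : D0.Countable := Set.countable_iUnion (fun n => (F n).countable_toSet)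
  obtain ⟨c, hcinj⟩ : ∃ c : {x : V // x ∈ X} → ℕ, Set.InjOn c D0 :=
    Set.countable_iff_exists_injOn.1 hD0
  let p : V → Prop := fun x => ∃ h : x ∈ X, (⟨x, h⟩ : {x : V // x ∈ X}) ∈ D0
  let D : V := sep X p
  have hD : ∀ x : V, x ∈ D ↔ ∃ h : x ∈ X, (⟨x, h⟩ : {x : V // x ∈ X}) ∈ D0 := by
    intro x
    show x ∈ sep X p ↔ _
    rw [mem_sep]
    constructor
    · rintro ⟨-, h⟩; exact h
    · rintro ⟨h, h'⟩; exact ⟨h, h, h'⟩
  let c' : V → ℕ := fun x => if h : x ∈ X then c ⟨x, h⟩ else 0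
  have hc'inj : ∀ x y : V, x ∈ D → y ∈ D → c' x = c' y → x = y := by
    intro x y hx hy hxy
    obtain ⟨hx1, hx2⟩ := (hD x).1 hx
    obtain ⟨hy1, hy2⟩ := (hD y).1 hy
    simp only [c', dif_pos hx1, dif_pos hy1] at hxy
    have := hcinj hx2 hy2 hxy
    exact congrArg Subtype.val this
  have hfix : ∀ x : V, x ∈ D → InN x ∧ ∀ φ : Equiv.Perm Atom, FixLT k φ → act φ x = x := by
    intro x hx
    obtain ⟨hx1, -⟩ := (hD x).1 hx
    exact ⟨hX.mem hx1, fun φ hφ => all_fixed hk hX hm hτ hc hφ hx1⟩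
  let S : V := image D (fun x => nat (c' x))
  let f : V := image D (fun x => pair x (nat (c' x)))
  have hS : ∀ y : V, y ∈ S ↔ ∃ x : V, x ∈ D ∧ nat (c' x) = y := fun y => mem_image
  have hf : ∀ y : V, y ∈ f ↔ ∃ x : V, x ∈ D ∧ pair x (nat (c' x)) = y := fun y => mem_image
  have hSN : InN S := by
    refine inN_of_members_fixed 0 (isSet_image _ _) (fun y hy => ?_)
    obtain ⟨x, -, rfl⟩ := (hS y).1 hy
    exact ⟨inN_nat _, fun φ _ => act_nat φ _⟩
  have hfN : InN f := by
    refine inN_of_members_fixed k (isSet_image _ _) (fun y hy => ?_)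
    obtain ⟨x, hx, rfl⟩ := (hf y).1 hy
    refine ⟨inN_pair (hfix x hx).1 (inN_nat _), fun φ hφ => ?_⟩
    rw [act_pair, (hfix x hx).2 φ hφ, act_nat]
  have hbij : IsBijection f D S := by
    refine ⟨isSet_image _ _, fun z hz => ?_, fun x hx => ?_, fun y hy => ?_⟩
    · obtain ⟨x, hx, rfl⟩ := (hf z).1 hz
      exact ⟨x, hx, nat (c' x), (hS _).2 ⟨x, hx, rfl⟩, rfl⟩
    · refine ⟨nat (c' x), (hf _).2 ⟨x, hx, rfl⟩, fun y hy => ?_⟩
      obtain ⟨x', -, h⟩ := (hf _).1 hy
      obtain ⟨h1, h2⟩ := pair_inj h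
      rw [← h2, h1]
    · obtain ⟨x, hx, rfl⟩ := (hS y).1 hy
      refine ⟨x, (hf _).2 ⟨x, hx, rfl⟩, fun x' hx' => ?_⟩
      obtain ⟨w, hw, h⟩ := (hf _).1 hx'
      obtain ⟨h1, h2⟩ := pair_inj h
      rw [← h1]
      exact hc'inj w x hw hx (nat_injective h2)
  refine ⟨D, isSet_sep _ _, inN_of_members_fixed k (isSet_sep _ _) hfix,
    fun z hz => ((hD z).1 hz).1, ⟨S, f, isSet_image _ _, hSN, ?_, hfN, hbij⟩, ?_⟩
  · intro y hy
    obtain ⟨x, -, rfl⟩ := (hS y).1 hy
    exact mem_ofFam.2 ⟨c' x, rfl⟩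
  · rintro U hU ⟨x, hx⟩
    obtain ⟨-, -, hUX, hopen⟩ := (hτ U).1 hU
    obtain ⟨ε, hε, hball⟩ := hopen x hx
    obtain ⟨n, hn⟩ := exists_nat_one_div_lt hε
    obtain ⟨y, hy, hxy⟩ := hF n ⟨x, hUX x hx⟩
    refine ⟨y.1, (hD _).2 ⟨y.2, ?_⟩, hball y.1 y.2 (hxy.trans hn)⟩
    exact Set.mem_iUnion.2 ⟨n, hy⟩

end Pool.Agent.Results.MP_0aaa5a_lc.CompactMetrizableSeparable
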